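import Pool.Agent.Helper16.SYM.Defs

/-!
# SYM-C4: the tensor trick
-/

set_option autoImplicit false

namespace Pool.Agent.Helper57.SYM

open scoped TensorProduct

/-- every tensor is fixed by all linear maps which are the identity on a suitable finitely generated
submodule -/
theorem exists_fixed {K : Type*} [Field K] {A : Type*} [CommRing A] [Algebra K A] {N : ℕ}
    (z : ⨂[K] _ : Fin N, A) :
    ∃ W : Submodule K A, W.FG ∧ ∀ ρ : A →ₗ[K] A, (∀ a ∈ W, ρ a = a) →
      PiTensorProduct.map (fun _ : Fin N => ρ) z = z := by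
  induction z using PiTensorProduct.induction_on with
  | smul_tprod r f =>
    refine ⟨Submodule.span K (Set.range f), Submodule.fg_span (Set.finite_range f), ?_⟩
    intro ρ hρ
    rw [map_smul, PiTensorProduct.map_tprod]
    congr 2
    funext i
    exact hρ _ (Submodule.subset_span ⟨i, rfl⟩)
  | add x y hx hy =>
    obtain ⟨W₁, h₁, k₁⟩ := hx
    obtain ⟨W₂, h₂, k₂⟩ := hy
    refine ⟨W₁ ⊔ W₂, h₁.sup h₂, ?_⟩
    intro ρ hρ
    rw [map_add, k₁ ρ fun a ha => hρ a (Submodule.mem_sup_left ha),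
      k₂ ρ fun a ha => hρ a (Submodule.mem_sup_right ha)]

/-- C4: the tensor trick -/
theorem map_ne_zero {K : Type*} [Field K] {A B : Type*} [CommRing A] [Algebra K A] [CommRing B]
    [Algebra K B] {N : ℕ} (z : ⨂[K] _ : Fin N, A) (hz : z ≠ 0) :
    ∃ W : Submodule K A, W.FG ∧ ∀ ψ : A →ₗ[K] B, (∀ a ∈ W, ψ a = 0 → a = 0) →
      PiTensorProduct.map (fun _ : Fin N => ψ) z ≠ 0 := by
  obtain ⟨W, hW, h⟩ := exists_fixed z
  refine ⟨W, hW, fun ψ hψ h0 => hz ?_⟩
  have hker : LinearMap.ker (ψ.comp W.subtype) = ⊥ := by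
    rw [LinearMap.ker_eq_bot']
    intro a ha
    exact Subtype.ext (hψ a.1 a.2 ha)
  obtain ⟨g, hg⟩ := (ψ.comp W.subtype).exists_leftInverse_of_injective hker
  have h1 : ∀ a ∈ W, ((W.subtype.comp g).comp ψ) a = a := by
    intro a ha
    have := congrArg (fun l : W →ₗ[K] W => ((l ⟨a, ha⟩ : W) : A)) hg
    exact this
  have h2 := h _ h1
  rw [← h2, PiTensorProduct.map_comp]
  change PiTensorProduct.map _ (PiTensorProduct.map _ z) = 0
  rw [h0, map_zero]

end Pool.Agent.Helper57.SYM
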