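import Pool.Agent.Helper16.SYM.Defs

/-!
# SYM-A1: coprimality over local rings and composition of divisors
-/

set_option autoImplicit false

namespace Pool.Agent.Helper57.SYM

open Polynomial IsLocalRing
open Pool.Agent.Helper16.SYM

/-- A1a -/
theorem isCoprime_of_residue {R : Type*} [CommRing R] [IsLocalRing R] {f U : R[X]} (hU : U.Monic)
    (h : IsCoprime (f.map (residue R)) (U.map (residue R))) : IsCoprime f U := by
  obtain ⟨a, b, hab⟩ := h
  obtain ⟨A, rfl⟩ := Polynomial.map_surjective (residue R) residue_surjective a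
  obtain ⟨B, rfl⟩ := Polynomial.map_surjective (residue R) residue_surjective b
  have hmod : ∀ p : R[X], p.map (residue R) = 0 →
      AdjoinRoot.mk U p ∈ (maximalIdeal R • (⊤ : Submodule R (AdjoinRoot U))) := by
    intro p hp
    rw [p.as_sum_range_C_mul_X_pow, map_sum]
    refine Submodule.sum_mem _ fun i _ => ?_
    have h1 : p.coeff i ∈ maximalIdeal R := by
      rw [← residue_eq_zero_iff, ← Polynomial.coeff_map, hp, coeff_zero]
    rw [← smul_eq_C_mul, ← AdjoinRoot.smul_mk]
    exact Submodule.smul_mem_smul h1 trivial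
  let N : Submodule R (AdjoinRoot U) :=
    (Ideal.span {AdjoinRoot.mk U f}).restrictScalars R
  have hfg : (⊤ : Submodule R (AdjoinRoot U)).FG := by
    have : Module.Finite R (AdjoinRoot U) := hU.finite_adjoinRoot
    exact Module.Finite.fg_top
  have htop : (⊤ : Submodule R (AdjoinRoot U)) ≤ N := by
    apply Submodule.le_of_le_smul_of_le_jacobson_bot hfg (maximalIdeal_le_jacobson (⊥ : Ideal R))
    intro x _
    obtain ⟨g, rfl⟩ := AdjoinRoot.mk_surjective x
    have h1 : (g * (1 - (A * f + B * U))).map (residue R) = 0 := by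
      simp only [Polynomial.map_mul, Polynomial.map_sub, Polynomial.map_one, Polynomial.map_add]
      rw [hab, sub_self, mul_zero]
    have h2 : AdjoinRoot.mk U g = AdjoinRoot.mk U (g * A * f) +
        AdjoinRoot.mk U (g * (1 - (A * f + B * U))) := by
      rw [← map_add, AdjoinRoot.mk_eq_mk]
      exact ⟨g * B, by ring⟩
    rw [h2]
    refine Submodule.add_mem_sup ?_ (hmod _ h1)
    change AdjoinRoot.mk U (g * A * f) ∈ Ideal.span {AdjoinRoot.mk U f}
    rw [map_mul]
    exact Ideal.mul_mem_left _ _ (Ideal.subset_span rfl)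
  have h1 : (1 : AdjoinRoot U) ∈ Ideal.span {AdjoinRoot.mk U f} := htop trivial
  rw [Ideal.mem_span_singleton'] at h1
  obtain ⟨c, hc⟩ := h1
  obtain ⟨g, rfl⟩ := AdjoinRoot.mk_surjective c
  rw [← map_mul, ← map_one (AdjoinRoot.mk U), AdjoinRoot.mk_eq_mk] at hc
  obtain ⟨d, hd⟩ := hc
  exact ⟨g, -d, by linear_combination hd⟩

/-- A1b -/
theorem C_dvd_of_monic_mul {R : Type*} [CommRing R] {U f : R[X]} (hU : U.Monic) (δ : R)
    (h : C δ ∣ U * f) : C δ ∣ f := by
  have key : ∀ p : R[X], C δ ∣ p ↔ p.map (Ideal.Quotient.mk (Ideal.span {δ})) = 0 := by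
    intro p
    rw [C_dvd_iff_dvd_coeff]
    constructor
    · intro hp
      ext i
      rw [coeff_map, coeff_zero, Ideal.Quotient.eq_zero_iff_mem, Ideal.mem_span_singleton]
      exact hp i
    · intro hp i
      rw [← Ideal.mem_span_singleton, ← Ideal.Quotient.eq_zero_iff_mem, ← coeff_map, hp,
        coeff_zero]
  rw [key] at h ⊢
  rw [Polynomial.map_mul] at h
  exact ((hU.map _).mul_right_eq_zero_iff).1 h

/-- A1c -/
theorem compose {R : Type*} [CommRing R] {G : R[X][X]} {V Y U W : R[X]} (hV : V ∣ G.eval Y)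
    (hU : U ∣ G.eval W) (hc : IsCoprime ((quo G Y).eval W) U) :
    ∃ Z : R[X], V * U ∣ G.eval Z ∧ V ∣ Z - Y ∧ U ∣ Z - W := by
  have hG : ∀ T : R[X], G.eval T = (T - Y) * (quo G Y).eval T + G.eval Y := by
    intro T
    have h1 := congrArg (Polynomial.eval T) (Polynomial.modByMonic_add_div G (X - C Y))
    rw [Polynomial.modByMonic_X_sub_C_eq_C_eval] at h1
    simp only [eval_add, eval_mul, eval_sub, eval_X, eval_C] at h1
    rw [← h1]
    unfold quo
    ring
  obtain ⟨g, hg⟩ := hV
  obtain ⟨a, b, hab⟩ := hc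
  obtain ⟨w, hw⟩ := hU
  set q := (quo G Y).eval W with hq
  -- `S = - g a`
  let S : R[X] := -(g * a)
  let Z : R[X] := Y + V * S
  have hS : S * q + g = g * b * U := by
    change -(g * a) * q + g = g * b * U
    linear_combination -g * hab
  have hZ : Z = Y + V * S := rfl
  have hGW := hG W
  rw [hw, hg] at hGW
  have hZW : U ∣ Z - W := by
    have h1 : IsCoprime U q := ⟨b, a, by linear_combination hab⟩
    refine h1.dvd_of_dvd_mul_right ⟨-w + V * g * b, ?_⟩
    rw [hZ]
    linear_combination V * hS + hGW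
  refine ⟨Z, ?_, ⟨S, by rw [hZ]; ring⟩, hZW⟩
  obtain ⟨c, hc⟩ := hZW.trans (Polynomial.sub_dvd_eval_sub Z W (quo G Y))
  refine ⟨S * c + g * b, ?_⟩
  rw [hG Z, hg]
  have h2 : (quo G Y).eval Z = q + U * c := by
    rw [← hc, hq]; ring
  rw [h2, hZ]
  linear_combination V * hS

end Pool.Agent.Helper57.SYM
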